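import Pool.Agent.Run7.h102.LS.Stm

/-! # LS, piece ASY (helper24): closed form inequality for the counting function `B` -/

set_option autoImplicit false

namespace Run7.h24.LS

open Finset Run7.h102.LS

theorem bern (w t : ℕ) : ∀ s : ℕ, t ^ (s + 1) + w * (s + 1) * t ^ s ≤ (t + w) ^ (s + 1) := by
  intro s
  induction s with
  | zero => simp
  | succ s ih =>
    calc t ^ (s + 1 + 1) + w * (s + 1 + 1) * t ^ (s + 1)
        ≤ (t + w) * (t ^ (s + 1) + w * (s + 1) * t ^ s) := by
          have : (t + w) * (t ^ (s + 1) + w * (s + 1) * t ^ s) =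
            t ^ (s + 1 + 1) + w * (s + 1 + 1) * t ^ (s + 1) + w * w * (s + 1) * t ^ s := by ring
          rw [this]
          exact Nat.le_add_right _ _
      _ ≤ (t + w) * (t + w) ^ (s + 1) := Nat.mul_le_mul_left _ ih
      _ = (t + w) ^ (s + 1 + 1) := by ring

theorem tele (w s b : ℕ) (hw : 1 ≤ w) : ∀ (N M : ℕ),
    w * (s + 1) * ∑ j ∈ range N, (if w * j ≤ M then (M - w * j + b) ^ s else 0) ≤ (M + b + w) ^ (s + 1) := by
  intro N
  induction N with
  | zero => intro M; simp
  | succ N ih =>
    intro M
    rw [sum_range_succ']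
    rw [if_pos (by omega : w * 0 ≤ M), mul_zero, Nat.sub_zero]
    by_cases h : w ≤ M
    · have e : ∑ j ∈ range N, (if w * (j + 1) ≤ M then (M - w * (j + 1) + b) ^ s else 0) =
          ∑ j ∈ range N, (if w * j ≤ M - w then (M - w - w * j + b) ^ s else 0) := by
        refine sum_congr rfl fun j _ => ?_
        rw [mul_add, mul_one]
        by_cases h2 : w * j ≤ M - w
        · rw [if_pos h2, if_pos (by omega), show M - (w * j + w) = M - w - w * j by omega]
        · rw [if_neg h2, if_neg (by omega)]
      rw [e, mul_add]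
      have h3 := ih (M - w)
      rw [show M - w + b + w = M + b by omega] at h3
      have h4 := bern w (M + b) s
      omega
    · have e : ∑ j ∈ range N, (if w * (j + 1) ≤ M then (M - w * (j + 1) + b) ^ s else 0) = 0 := by
        refine sum_eq_zero fun j _ => ?_
        rw [mul_add, mul_one, if_neg (by omega)]
      rw [e, zero_add]
      have h4 := bern w (M + b) s
      omega

theorem choose_le (x s : ℕ) : s.factorial * (x + s).choose s ≤ (x + s) ^ s := by
  rw [← Nat.descFactorial_eq_factorial_mul_choose]
  exact Nat.descFactorial_le_pow _ _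

theorem t_ASY : S_ASY := by
  intro r c n hr hc
  obtain ⟨s, rfl⟩ : ∃ s, r = s + 3 := ⟨r - 3, by omega⟩
  unfold B
  simp only [Nat.add_sub_cancel]
  -- the inner sum
  have h1 : ∀ k, (s + 3) * (s + 1) * (s.factorial * ∑ j ∈ range (n + 1),
      (if c * k + (s + 3) * j ≤ n then (n - (c * k + (s + 3) * j) + s).choose s else 0)) ≤
      if c * k ≤ n then (n - c * k + (s + (s + 3))) ^ (s + 1) else 0 := by
    intro k
    split_ifs with h
    · refine le_trans ?_ (le_of_le_of_eq (tele (s + 3) s s (by omega) (n + 1) (n - c * k)) (by ring))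
      refine Nat.mul_le_mul_left _ ?_
      rw [mul_sum]
      refine sum_le_sum fun j _ => ?_
      by_cases h2 : c * k + (s + 3) * j ≤ n
      · rw [if_pos h2, if_pos (by omega), show n - (c * k + (s + 3) * j) = n - c * k - (s + 3) * j by omega]
        exact choose_le _ _
      · rw [if_neg h2, mul_zero]
        exact Nat.zero_le _
    · have e : ∑ j ∈ range (n + 1),
          (if c * k + (s + 3) * j ≤ n then (n - (c * k + (s + 3) * j) + s).choose s else 0) = 0 := by
        refine sum_eq_zero fun j _ => ?_
        rw [if_neg]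
        intro h2
        exact h (le_trans (Nat.le_add_right _ _) h2)
      rw [e, mul_zero, mul_zero]
  have h2 := tele c (s + 1) (s + (s + 3)) hc (n + 1) n
  have h3 : (s + 3).factorial = (s + 3) * (s + 2) * (s + 1) * s.factorial := by
    rw [Nat.factorial_succ, Nat.factorial_succ, Nat.factorial_succ]
    ring
  rw [show s + 3 - 1 = s + 1 + 1 by omega, show n + c + 2 * (s + 3) - 3 = n + (s + (s + 3)) + c by omega]
  refine le_trans ?_ h2
  rw [h3]
  calc c * ((s + 3) * (s + 2) * (s + 1) * s.factorial) * ∑ k ∈ range (n + 1), ∑ j ∈ range (n + 1),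
        (if c * k + (s + 3) * j ≤ n then (n - (c * k + (s + 3) * j) + s).choose s else 0)
      = c * (s + 1 + 1) * ∑ k ∈ range (n + 1), (s + 3) * (s + 1) * (s.factorial * ∑ j ∈ range (n + 1),
        (if c * k + (s + 3) * j ≤ n then (n - (c * k + (s + 3) * j) + s).choose s else 0)) := by
        rw [← mul_sum, ← mul_sum]
        ring
    _ ≤ _ := Nat.mul_le_mul_left _ (sum_le_sum fun k _ => h1 k)

end Run7.h24.LS
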