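import Pool.Agent.Run7.h102.LS.Stm

/-! # LS, piece CARD (helper24): cardinality of the family -/

set_option autoImplicit false

namespace Run7.h24.LS

open Finset Run7.h102.LS

theorem t_CARD : S_CARD := by
  intro r hr
  have e : fam r = ((powersetCard 1 (univ : Finset (Fin r)) ∪ powersetCard 2 univ) ∪ powersetCard (r - 1) univ) ∪
      powersetCard r univ := by
    ext S
    simp only [fam, mem_filter, mem_univ, true_and, mem_union, mem_powersetCard, subset_univ]
    omega
  rw [e, card_union_of_disjoint, card_union_of_disjoint, card_union_of_disjoint]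
  · simp only [card_powersetCard, card_univ, Fintype.card_fin, Nat.choose_one_right, Nat.choose_self]
    have h1 : r.choose (r - 1) = r := by
      rw [Nat.choose_symm (by omega : 1 ≤ r), Nat.choose_one_right]
    rw [h1, Nat.choose_two_right]
    obtain ⟨s, rfl⟩ : ∃ s, r = s + 1 := ⟨r - 1, by omega⟩
    rw [Nat.add_sub_cancel]
    have h2 : (s + 1 + 1) * (s + 1 + 2) = (s + 1) * s + 2 * (2 * (s + 1) + 1) := by ring
    rw [h2, Nat.add_mul_div_left _ _ (by norm_num)]
    ring
  · rw [disjoint_left]
    intro S h1 h2
    rw [mem_powersetCard] at h1 h2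
    omega
  · rw [disjoint_left]
    intro S h1 h2
    rw [mem_union, mem_powersetCard, mem_powersetCard] at h1
    rw [mem_powersetCard] at h2
    omega
  · rw [disjoint_left]
    intro S h1 h2
    rw [mem_union, mem_union, mem_powersetCard, mem_powersetCard, mem_powersetCard] at h1
    rw [mem_powersetCard] at h2
    omega

end Run7.h24.LS
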