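import Pool.Agent.Run7.h102.LS.Stm

/-! # LS, piece CNT (helper24): iteration of FIL and LAM -/

set_option autoImplicit false

namespace Run7.h24.LS

open MvPolynomial Finset Run7.h102.LS

instance hom_finite (m n : ℕ) : Module.Finite K (homogeneousSubmodule (Fin m) K n) :=
  Module.Finite.of_fg (homogeneousSubmodule_fg (Fin m) K n)

/-- the substitution `x_i ↦ x₁ + ⋯ + x_i` -/
noncomputable def psv (r : ℕ) (i : Fin r) : MvPolynomial (Fin r) K := ∑ j ∈ Finset.univ.filter (fun j => j ≤ i), X j

theorem ps_getD {A : Type} [AddCommMonoid A] : ∀ (l : List A) (s : A) (i : ℕ), i < l.length →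
    (ps s l).getD i 0 = s + (l.take (i + 1)).sum := by
  intro l
  induction l with
  | nil => intro s i h; simp at h
  | cons a l ih =>
    intro s i h
    cases i with
    | zero => simp [ps]
    | succ i =>
      simp only [List.length_cons] at h
      have := ih (s + a) i (by omega)
      rw [ps, List.getD_cons_succ, this, List.take_succ_cons, List.sum_cons, add_assoc]

theorem Xs_take_sum (r i : ℕ) (h : i < r) : ((Xs K r).take (i + 1)).sum = psv r ⟨i, h⟩ := by
  unfold psv Xs
  rw [← List.map_take]
  have h1 : ((List.finRange r).take (i + 1)).map (X : Fin r → MvPolynomial (Fin r) K) =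
    ((List.finRange r).take (i + 1)).map X := rfl
  have h2 : ((List.finRange r).take (i + 1)).Nodup := (List.nodup_finRange r).sublist (List.take_sublist _ _)
  rw [← List.sum_toFinset _ h2]
  refine sum_congr ?_ fun _ _ => rfl
  ext j
  simp only [List.mem_toFinset, mem_filter, mem_univ, true_and, List.mem_take_iff_getElem, List.getElem_finRange,
    List.length_finRange]
  constructor
  · rintro ⟨k, hk, rfl⟩
    rw [Fin.le_def]
    simp only [Fin.cast_mk]
    omega
  · intro hj
    rw [Fin.le_def] at hj
    refine ⟨j.1, by have := j.2; simp only at hj; omega, ?_⟩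
    ext
    simp

theorem shp_eq {r : ℕ} (f : MvPolynomial (Fin r) K) : shp f = aeval (psv r) f := by
  unfold shp ev
  have : (fun i : Fin r => (ps 0 (Xs K r)).getD (i : ℕ) 0) = psv r := by
    funext i
    rw [ps_getD _ _ _ (by rw [Xs_length]; exact i.2), zero_add, Xs_take_sum r i.1 i.2]
  rw [this]

/-- the inverse substitution `x_i ↦ x_i - x_(i-1)` -/
noncomputable def dfv (r : ℕ) (i : Fin r) : MvPolynomial (Fin r) K :=
  X i + ∑ j ∈ Finset.univ.filter (fun j : Fin r => (j : ℕ) + 1 = i), X j

theorem psv_succ (r : ℕ) (i j : Fin r) (h : (j : ℕ) + 1 = i) : psv r i = psv r j + X i := by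
  unfold psv
  have : (univ.filter fun k : Fin r => k ≤ i) = insert i (univ.filter fun k : Fin r => k ≤ j) := by
    ext k
    simp only [mem_filter, mem_univ, true_and, mem_insert, Fin.le_def, Fin.ext_iff]
    omega
  rw [this, sum_insert, add_comm]
  simp only [mem_filter, mem_univ, true_and, Fin.le_def]
  omega

theorem comp_X (r : ℕ) (i : Fin r) : aeval (psv r) (dfv r i) = (X i : MvPolynomial (Fin r) K) := by
  unfold dfv
  rw [map_add, aeval_X, map_sum]
  by_cases h : (i : ℕ) = 0
  · have e : (univ.filter fun j : Fin r => (j : ℕ) + 1 = i) = ∅ := by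
      ext k; simp only [mem_filter, mem_univ, true_and, notMem_empty, iff_false]; omega
    rw [e, sum_empty, add_zero]
    unfold psv
    have e2 : (univ.filter fun j : Fin r => j ≤ i) = {i} := by
      ext k; simp only [mem_filter, mem_univ, true_and, mem_singleton, Fin.le_def, Fin.ext_iff]; omega
    rw [e2, sum_singleton]
  · obtain ⟨j, hj⟩ : ∃ j : Fin r, (j : ℕ) + 1 = i := ⟨⟨i - 1, by omega⟩, by simp only; omega⟩
    have e : (univ.filter fun j : Fin r => (j : ℕ) + 1 = i) = {j} := by
      ext k; simp only [mem_filter, mem_univ, true_and, mem_singleton, Fin.ext_iff]; omega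
    rw [e, sum_singleton, aeval_X, psv_succ r i j hj, add_right_comm, ← two_smul K, 
      show (2 : K) = 0 from rfl, zero_smul, zero_add]

theorem comp_psv (r : ℕ) : ∀ (i : ℕ) (h : i < r), aeval (dfv r) (psv r ⟨i, h⟩) = (X ⟨i, h⟩ : MvPolynomial (Fin r) K) := by
  intro i
  induction i with
  | zero =>
    intro h
    have e2 : (univ.filter fun j : Fin r => j ≤ ⟨0, h⟩) = {⟨0, h⟩} := by
      ext k; simp only [mem_filter, mem_univ, true_and, mem_singleton, Fin.le_def, Fin.ext_iff]; omega
    have e : (univ.filter fun j : Fin r => (j : ℕ) + 1 = 0) = ∅ := by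
      ext k; simp
    unfold psv
    rw [e2, sum_singleton, aeval_X]
    unfold dfv
    rw [e, sum_empty, add_zero]
  | succ i ih =>
    intro h
    rw [psv_succ r ⟨i + 1, h⟩ ⟨i, by omega⟩ rfl, map_add, ih, aeval_X]
    unfold dfv
    have e : (univ.filter fun j : Fin r => (j : ℕ) + 1 = i + 1) = {⟨i, by omega⟩} := by
      ext k; simp only [mem_filter, mem_univ, true_and, mem_singleton, Fin.ext_iff]; omega
    rw [e, sum_singleton, add_left_comm, ← two_smul K, show (2 : K) = 0 from rfl, zero_smul, add_zero]

theorem shp_inj (r : ℕ) : Function.Injective (shp : MvPolynomial (Fin r) K → MvPolynomial (Fin r) K) := by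
  have h : Function.LeftInverse (aeval (dfv r) : MvPolynomial (Fin r) K → MvPolynomial (Fin r) K) shp := by
    intro f
    rw [shp_eq, ← AlgHom.comp_apply]
    have : (aeval (dfv r) : MvPolynomial (Fin r) K →ₐ[K] MvPolynomial (Fin r) K).comp (aeval (psv r)) =
        AlgHom.id K _ := by
      apply algHom_ext
      intro i
      rw [AlgHom.comp_apply, aeval_X, comp_psv r i.1 i.2]
      rfl
    rw [this, AlgHom.id_apply]
  exact h.injective

theorem psv_hom (r : ℕ) (i : Fin r) : (psv r i).IsHomogeneous 1 :=
  IsHomogeneous.sum _ _ _ fun j _ => isHomogeneous_X K j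

theorem shp_hom {r n : ℕ} {f : MvPolynomial (Fin r) K} (h : f.IsHomogeneous n) : (shp f).IsHomogeneous n := by
  rw [shp_eq]
  have := h.aeval (psv r) (psv_hom r)
  rwa [one_mul] at this

theorem Esp_le (r n k : ℕ) : Esp r n k ≤ homogeneousSubmodule (Fin r) K n := by
  rintro F ⟨⟨f, hf, rfl⟩, _⟩
  exact shp_hom hf.1

instance Esp_finite (r n k : ℕ) : Module.Finite K (Esp r n k) :=
  Submodule.finiteDimensional_of_le (Esp_le r n k)

theorem finrank_D_le (r n : ℕ) : Module.finrank K (D K r n) ≤ Module.finrank K (Esp r n 0) := by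
  let φ : D K r n →ₗ[K] Esp r n 0 := LinearMap.codRestrict _
    ((aeval (psv r) : MvPolynomial (Fin r) K →ₐ[K] MvPolynomial (Fin r) K).toLinearMap.comp (D K r n).subtype)
    (by
      intro f
      refine ⟨⟨f.1, f.2, ?_⟩, by rw [pow_zero]; exact one_dvd _⟩
      rw [shp_eq]
      rfl)
  refine LinearMap.finrank_le_finrank_of_injective (f := φ) ?_
  intro f g h
  apply Subtype.ext
  apply shp_inj r
  rw [shp_eq, shp_eq]
  exact congrArg Subtype.val h

theorem Esp_top (r n : ℕ) (hr : 1 ≤ r) : Esp r n (n + 1) = ⊥ := by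
  rw [eq_bot_iff]
  rintro F ⟨⟨f, hf, rfl⟩, g, hg⟩
  rw [Submodule.mem_bot]
  by_contra h0
  have h1 : (shp f).totalDegree = n := (shp_hom hf.1).totalDegree h0
  have hs : (∑ i, X i : MvPolynomial (Fin r) K).IsHomogeneous 1 :=
    IsHomogeneous.sum _ _ _ fun j _ => isHomogeneous_X K j
  have hs2 := hs.pow (n + 1)
  rw [hg] at h0 h1
  have h2 : (∑ i, X i : MvPolynomial (Fin r) K) ^ (n + 1) ≠ 0 := left_ne_zero_of_mul h0
  have h3 : g ≠ 0 := right_ne_zero_of_mul h0
  rw [totalDegree_mul_of_isDomain h2 h3, hs2.totalDegree h2] at h1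
  omega

theorem t_CNT : S_CNT := by
  intro hFIL hNIL hDIV hLAM hANTI hDIM r n hr
  obtain ⟨m, rfl⟩ : ∃ m, r = m + 3 := ⟨r - 3, by omega⟩
  set c := (fam (m + 3)).card with hc
  -- iteration of LAM
  have lam : ∀ N x : ℕ, Module.finrank K (Lam (m + 2) x) ≤
      (if (m + 3) * N ≤ x then Module.finrank K (Lam (m + 2) (x - (m + 3) * N)) else 0) +
        ∑ j ∈ range N, if (m + 3) * j ≤ x then (x - (m + 3) * j + m).choose m else 0 := by
    intro N
    induction N with
    | zero => intro x; simp
    | succ N ih =>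
      intro x
      refine (ih x).trans ?_
      rw [sum_range_succ, ← add_assoc, add_right_comm]
      refine Nat.add_le_add_right ?_ _
      by_cases h : (m + 3) * N ≤ x
      · rw [if_pos h, if_pos h]
        refine (hLAM hANTI hDIV (m + 1) (x - (m + 3) * N) (by omega)).trans ?_
        refine Nat.add_le_add ?_ ?_
        · by_cases h2 : (m + 3) * (N + 1) ≤ x
          · rw [if_pos h2, if_pos (by rw [mul_add, mul_one] at h2; omega),
              show x - (m + 3) * N - (m + 1 + 2) = x - (m + 3) * (N + 1) by rw [mul_add, mul_one]; omega]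
          · rw [if_neg h2, if_neg (by rw [mul_add, mul_one] at h2; omega)]
        · have := hDIM (m + 1) (x - (m + 3) * N) (by omega)
          rwa [Nat.add_sub_cancel] at this
      · rw [if_neg h, if_neg h]
        exact Nat.zero_le _
  -- iteration of FIL
  have fil : ∀ N : ℕ, Module.finrank K (Esp (m + 3) n 0) ≤ Module.finrank K (Esp (m + 3) n N) +
      ∑ k ∈ range N, if k * c ≤ n then Module.finrank K (Lam (m + 2) (n - k * c)) else 0 := by
    intro N
    induction N with
    | zero => simp
    | succ N ih =>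
      refine ih.trans ?_
      rw [sum_range_succ, ← add_assoc, add_right_comm]
      exact Nat.add_le_add_right (hFIL hNIL hDIV (m + 2) n N (by omega)) _
  refine (finrank_D_le _ _).trans ((fil (n + 1)).trans ?_)
  rw [Esp_top _ _ (by omega), finrank_bot, zero_add]
  unfold B
  refine sum_le_sum fun k _ => ?_
  rw [mul_comm c k]
  by_cases h : k * c ≤ n
  · rw [if_pos h]
    refine (lam (n + 1) (n - k * c)).trans ?_
    rw [if_neg (by nlinarith [Nat.sub_le n (k * c)]), zero_add]
    refine sum_le_sum fun j _ => ?_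
    by_cases h2 : k * c + (m + 3) * j ≤ n
    · rw [if_pos h2, if_pos (by omega), show n - k * c - (m + 3) * j = n - (k * c + (m + 3) * j) by omega]
      exact le_rfl
    · rw [if_neg h2, if_neg (by omega)]
  · rw [if_neg h]
    exact Nat.zero_le _

end Run7.h24.LS
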