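import Pool.Agent.Run7.h102.LS.Stm

/-! # LS, piece DIM (helper24): the number of the monomials -/

set_option autoImplicit false

namespace Run7.h24.LS

open MvPolynomial Run7.h102.LS

theorem t_DIM : S_DIM := by
  intro m n hm
  have hS : {d : Fin m →₀ ℕ | d.degree = n} = ↑((Finset.univ : Finset (Fin m)).finsuppAntidiag n) := by
    ext d
    simp [Finset.mem_finsuppAntidiag, Finsupp.degree_eq_sum]
  rw [homogeneousSubmodule_eq_finsupp_supported, hS]
  rw [(AddMonoidAlgebra.supportedEquivFinsupp (R := K) (S := K)
    (↑((Finset.univ : Finset (Fin m)).finsuppAntidiag n) : Set (Fin m →₀ ℕ))).finrank_eq]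
  rw [Module.finrank_finsupp_self]
  have h2 : Fintype.card (↑((Finset.univ : Finset (Fin m)).finsuppAntidiag n) : Set (Fin m →₀ ℕ)) =
      ((Finset.univ : Finset (Fin m)).finsuppAntidiag n).card := by simp
  rw [h2, Finset.card_finsuppAntidiag_nat_eq_choose, Finset.card_univ, Fintype.card_fin,
    show m + n - 1 = n + (m - 1) by omega, Nat.choose_symm_add]

end Run7.h24.LS
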