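import Pool.Agent.Run7.h102.LS.Stm

/-! # LS, piece WM (helper24) -/

set_option autoImplicit false

namespace Run7.h24.LS

open Finset Run7.h102.LS Pool.Agent.H777R4.DM

theorem Wt_lt {A : Type} [CommRing A] : ∀ (N : ℕ) (l : List A) (β : List (Fin 2) → A), N < l.length →
    Wt N l β = 0 := by
  intro N
  induction N with
  | zero =>
    intro l β h
    cases l with
    | nil => simp at h
    | cons a l => rfl
  | succ N ih =>
    intro l β h
    cases l with
    | nil => simp at h
    | cons a l =>
      simp only [List.length_cons] at h
      show Wt N l _ + a * Wt N (a :: l) _ = 0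
      rw [ih l _ (by omega), ih (a :: l) _ (by simp only [List.length_cons]; omega), mul_zero, add_zero]

theorem t_WM : S_WM := by
  intro A _ N
  induction N with
  | zero =>
    intro l β h
    have h1 : l = [] := List.length_eq_zero_iff.1 (by omega)
    subst h1
    simp [Wt, Mv, wordX]
  | succ N ih =>
    intro l β h
    cases l with
    | nil => simp [Wt, Mv]
    | cons a l =>
      simp only [List.length_cons] at h ⊢
      have e0 : Wt (N + 1) (a :: l) β = Wt N l (fun w => β (1 :: w)) + a * Wt N (a :: l) (fun w => β (0 :: w)) :=
        rfl
      have e1 : ∀ n : ℕ, Mv n (a :: l) (fun k => β (wordX k)) =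
          ∑ k ∈ range (n + 1), a ^ k * Mv (n - k) l (fun w => β (wordX (k :: w))) := fun n => rfl
      rw [e0, e1, ih l _ (by omega)]
      by_cases hl : l.length = N
      · rw [Wt_lt N (a :: l) _ (by simp only [List.length_cons]; omega)]
        rw [show N + 1 - (l.length + 1) = 0 by omega, show N - l.length = 0 by omega]
        simp [wordX]
      · rw [ih (a :: l) _ (by simp only [List.length_cons]; omega)]
        obtain ⟨n', hn'⟩ : ∃ n', N - l.length = n' + 1 := ⟨N - l.length - 1, by omega⟩
        have e2 : ∀ n : ℕ, Mv n (a :: l) (fun k => β (0 :: wordX k)) =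
          ∑ k ∈ range (n + 1), a ^ k * Mv (n - k) l (fun w => β (0 :: wordX (k :: w))) := fun n => rfl
        rw [show N + 1 - (l.length + 1) = n' + 1 by omega, List.length_cons,
          show N - (l.length + 1) = n' by omega, e2, hn', sum_range_succ' _ (n' + 1), mul_sum]
        rw [add_comm]
        congr 1
        · refine sum_congr rfl fun k _ => ?_
          rw [show n' + 1 - (k + 1) = n' - k by omega, pow_succ]
          have e3 : (fun w : List ℕ => β (wordX ((k + 1) :: w))) = fun w => β (0 :: wordX (k :: w)) := by
            funext w
            simp [wordX, List.replicate_succ]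
          rw [e3]
          ring
        · simp [wordX]

end Run7.h24.LS
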